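import Pool.Agent.X145.DN.Main

/-!
# MP_cc2bbb_co, Q1: the fractional domatic number of large-girth graphs of minimum degree two: `L = 5/2`

Upper bound `L ≤ 5/2`. Take a graph `H` of large girth in which all degrees are huge, colour its edges by two colours
so that every vertex set `S` spans almost equally many edges of both colours (few sets, many edges), subdivide the
edges of the first colour once and those of the second colour twice. With weight `1` on the subdivision vertices and
weight `deg_1(v)` on the vertices `v` of `H`, the total weight is `(5/2 + o(1)) e(H)`, and every dominating set has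
weight at least `e(H) + e_1(S) - e_2(S) ≥ (1 - o(1)) e(H)`, where `S` is its trace on `V(H)`.
With the known lower bound `fdom ≥ 5/2` this gives `L = 5/2`, and the infimum is `5/2` for every large `g`.
-/

set_option autoImplicit false

namespace Pool.Agent.Results.MP_cc2bbb_co.DomaticLimit

open Filter Topology Pool.Agent.X145.DN

theorem result :
    (∀ g : ℕ, ∀ ε : ℝ, 0 < ε → ∃ (V : Type) (_ : Finite V) (G : SimpleGraph V),
      MinDegTwo G ∧ (g : ℕ∞) ≤ G.egirth ∧
      ∀ a b : ℕ, 0 < b → (∃ φ : V → Finset (Fin a), IsDomCol G a b φ) → (a : ℝ) / b ≤ 5 / 2 + ε) ∧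
    (∀ g : ℕ, sInf (values g) ≤ 5 / 2) ∧
    (∃ L : ℝ, Tendsto (fun g => sInf (values g)) atTop (𝓝 L) ∧ L ≤ 5 / 2) ∧
    (∀ g₀ : ℕ, (∀ (V : Type) (_ : Finite V) (G : SimpleGraph V), MinDegTwo G →
        (g₀ : ℕ∞) ≤ G.egirth → 5 / 2 ≤ fdom G) →
      (∀ g : ℕ, g₀ ≤ g → sInf (values g) = 5 / 2) ∧
      Tendsto (fun g => sInf (values g)) atTop (𝓝 (5 / 2))) := by
  refine ⟨fun g ε hε => ?_, inf_le, exists_L, fun g₀ h => L_eq g₀ ?_⟩
  · obtain ⟨W, hW, G, h1, h2, h3⟩ := main_graph g (min (ε / 6) (1 / 2)) (by positivity)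
      (min_le_right _ _)
    refine ⟨W, inferInstance, G, h1, h2, fun a b hb hφ => (h3 a b hb hφ).trans ?_⟩
    have := min_le_left (ε / 6) (1 / 2)
    linarith
  · rintro q ⟨V, hV, G, h1, h2, rfl⟩
    exact h V hV G h1 h2

end Pool.Agent.Results.MP_cc2bbb_co.DomaticLimit
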